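import Mathlib

set_option linter.unusedSectionVars false
set_option linter.unusedVariables false
set_option linter.dupNamespace false

namespace Pool.Agent.H.MP_b4265e_pr

open Finset Filter Topology Relation

variable {V : Type} [DecidableEq V] {nb : V → Fin 3 × Bool → V} {iv : V → Fin 3 × Bool → Fin 3 × Bool}
  (hv : ∀ v d, iv (nb v d) (iv v d) = d) (hi : ∀ v d, nb (nb v d) (iv v d) = v)

def bd (nb : V → Fin 3 × Bool → V) (K : Finset V) : Finset (V × Fin 3 × Bool) :=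
  {p ∈ K ×ˢ univ | nb p.1 p.2 ∉ K}

def Con (nb : V → Fin 3 × Bool → V) (o : V) (K : Finset V) : Prop :=
  o ∈ K ∧ ∀ x ∈ K, ReflTransGen (fun a b => b ∈ K ∧ ∃ d, nb a d = b) o x

noncomputable def hh (nb : V → Fin 3 × Bool → V) (o : V) : ℕ → V → ℝ
  | 0 => fun x => if x = o then 1 else 0
  | k + 1 => fun x => if x = o then 1 else (∑ d, hh nb o k (nb x d)) / 6

include hv hi

lemma flux (K : Finset V) (g : V → ℝ) :
    ∑ p ∈ bd nb K, (g p.1 - g (nb p.1 p.2)) = ∑ x ∈ K, (6 * g x - ∑ d, g (nb x d)) := by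
  have e : ∑ p ∈ K ×ˢ univ with ¬ nb p.1 p.2 ∉ K, (g p.1 - g (nb p.1 p.2)) = 0 := by
    rw [sum_sub_distrib, sub_eq_zero]
    exact sum_nbij' (fun p => (nb p.1 p.2, iv p.1 p.2)) (fun p => (nb p.1 p.2, iv p.1 p.2))
      (by simp +contextual [hi]) (by simp +contextual [hi]) (by simp [hi, hv]) (by simp [hi, hv])
      (by simp [hi])
  rw [bd, ← add_zero (∑ p ∈ _, _), ← e, sum_filter_add_sum_filter_not, sum_product]
  simp

variable {o : V} {g : V → ℝ} {S : Finset V} (g0 : ∀ x, 0 ≤ g x) (g1 : g o = 1)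
  (gS : ∀ x, 0 < g x → x ∈ S) (sub : ∀ x, x ≠ o → 6 * g x ≤ ∑ d, g (nb x d))
  (cn : ∀ x, 0 < g x → ReflTransGen (fun a b => ∃ d, nb a d = b) o x)
include g0 g1 gS sub cn

lemma con {s : ℝ} (s0 : 0 ≤ s) (s1 : s < 1) : Con nb o {x ∈ S | s < g x} := by
  classical
  obtain ⟨K, hK⟩ : ∃ K, K = {x ∈ S | s < g x} := ⟨_, rfl⟩
  have mK : ∀ x, x ∈ K ↔ s < g x := fun x => by
    rw [hK, mem_filter]; exact and_iff_right_of_imp fun h => gS x (s0.trans_lt h)
  rw [← hK]
  refine ⟨(mK o).2 (g1 ▸ s1), fun x hx => by_contra fun hn => ?_⟩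
  obtain ⟨C, hC⟩ : ∃ C, C = {x ∈ K | ¬ ReflTransGen (fun a b => b ∈ K ∧ ∃ d, nb a d = b) o x} := ⟨_, rfl⟩
  have oC : o ∉ C := by simp [hC, ReflTransGen.refl]
  have f := flux hv hi C g
  have cl : ∀ x ∈ C, ∀ d, nb x d ∈ C := fun x hx d => by_contra fun h => by
    refine (f.trans_le (sum_nonpos fun y hy => sub_nonpos.2 (sub y (by rintro rfl; exact oC hy)))).not_gt
      (sum_pos (fun p hp => ?_) ⟨(x, d), by simp [bd, hx, h]⟩)
    simp only [bd, hC, mem_filter, mem_product, mem_univ, and_true, not_and, not_not] at hp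
    have := (mK _).1 hp.1.1
    by_contra k
    exact hp.1.2 ((hp.2 ((mK _).2 (by linarith))).tail ⟨hp.1.1, _, hi _ _⟩)
  have : ∀ y, ReflTransGen (fun a b => ∃ d, nb a d = b) o y → y ∉ C := fun y h => by
    induction h with
    | refl => exact oC
    | @tail a _ _ h ih => obtain ⟨d, rfl⟩ := h; exact fun k => ih (by simpa [hi] using cl _ k (iv a d))
  exact this x (cn x (s0.trans_lt ((mK x).1 hx))) (hC ▸ mem_filter.2 ⟨hx, hn⟩)

lemma lev {a : ℝ} (a1 : 1 ≤ a) (iso : ∀ K, Con nb o K → ∀ t : ℝ, 0 ≤ t → t ^ 3 = #K → t ^ 2 ≤ a * #(bd nb K))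
    (n : ℕ) : ∀ s : ℝ, 0 ≤ s → s < 1 → #S - #{x ∈ S | s < g x} = n → ∀ t : ℝ, 0 ≤ t →
      t ^ 3 = #{x ∈ S | s < g x} → s * t ≤ 2016 * a ^ 2 := by
  induction n using Nat.strong_induction_on with
  | _ n ih =>
  intro s s0 s1 hn t t0 ht
  have c := con hv hi g0 g1 gS sub cn s0 s1
  have i := iso _ c t t0 ht
  obtain ⟨K, hK⟩ : ∃ K, K = {x ∈ S | s < g x} := ⟨_, rfl⟩
  have mK : ∀ x, x ∈ K → s < g x := fun x h => by rw [hK] at h; exact (mem_filter.1 h).2
  rw [← hK] at c i ht hn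
  have f : ∑ p ∈ bd nb K, (g p.1 - g (nb p.1 p.2)) ≤ 6 := by
    rw [flux hv hi, ← add_sum_erase _ _ c.1, g1]
    linarith [sum_nonneg fun d (_ : d ∈ univ) => g0 (nb o d),
      sum_nonpos fun y (hy : y ∈ K.erase o) => sub_nonpos.2 (sub y (ne_of_mem_erase hy))]
  have t1 : 1 ≤ t := le_of_pow_le_pow_left₀ three_ne_zero t0 (by
    rw [ht, one_pow]; exact_mod_cast card_pos.2 ⟨o, c.1⟩)
  have bv : (#(bd nb K) : ℝ) ≤ 6 * t ^ 3 := by
    rw [ht]; exact_mod_cast (card_filter_le _ _).trans_eq (by simp [mul_comm])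
  obtain ⟨b, hb⟩ : ∃ b : ℝ, b = #(bd nb K) := ⟨_, rfl⟩
  have b0 : 0 < b := by rw [hb]; nlinarith
  obtain ⟨r, hr⟩ : ∃ r, r = 12 / b := ⟨_, rfl⟩
  have rb : r * b = 12 := by rw [hr]; field_simp
  have r0 : 0 < r := by rw [hr]; positivity
  rw [← hb] at i bv
  have rt : r * t ^ 2 ≤ 12 * a := by nlinarith
  rcases lt_or_ge s r with h | h
  · nlinarith [mul_le_mul_of_nonneg_right h.le t0, mul_le_mul_of_nonneg_left t1 (mul_nonneg r0.le t0)]
  have nn : ∀ p ∈ bd nb K, 0 ≤ g p.1 - g (nb p.1 p.2) := fun p hp => by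
    simp only [bd, mem_filter, mem_product] at hp
    by_contra k
    have := mK _ hp.1.1
    exact hp.2 (hK ▸ mem_filter.2 ⟨gS _ (by linarith), by linarith⟩)
  have m1 : (#{p ∈ bd nb K | r ≤ g p.1 - g (nb p.1 p.2)} : ℝ) * r ≤ 6 := by
    rw [← nsmul_eq_mul]
    exact (card_nsmul_le_sum _ _ _ fun p hp => (mem_filter.1 hp).2).trans
      ((sum_le_sum_of_subset_of_nonneg (filter_subset _ _) fun p hp _ => nn p hp).trans f)
  have m2 := card_filter_add_card_filter_not (s := bd nb K) fun p => r ≤ g p.1 - g (nb p.1 p.2)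
  obtain ⟨K', hK'⟩ : ∃ K', K' = {x ∈ S | s - r < g x} := ⟨_, rfl⟩
  have kk : K ⊆ K' := fun x hx => hK' ▸ mem_filter.2 ⟨(mem_filter.1 (hK ▸ hx)).1, by linarith [mK x hx]⟩
  have m3 : #{p ∈ bd nb K | ¬ r ≤ g p.1 - g (nb p.1 p.2)} ≤ #((K' \ K) ×ˢ (univ : Finset (Fin 3 × Bool))) :=
    card_le_card_of_injOn (fun p => (nb p.1 p.2, iv p.1 p.2)) (fun p hp => by
      simp only [bd, coe_filter, mem_filter, mem_product, Set.mem_ofPred_eq, not_le] at hp
      have := mK _ hp.1.1.1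
      simp only [coe_product, Set.mem_prod, mem_coe, Finset.mem_sdiff, mem_univ, and_true]
      exact ⟨hK' ▸ mem_filter.2 ⟨gS _ (by linarith), by linarith⟩, hp.1.2⟩)
      (Function.LeftInverse.injective (g := fun p => (nb p.1 p.2, iv p.1 p.2)) fun p => by simp [hi, hv]).injOn
  rw [card_product, card_univ, show Fintype.card (Fin 3 × Bool) = 6 by simp] at m3
  have m4 := card_sdiff_add_card_eq_card kk
  have m5 : t ^ 3 + b / 12 ≤ #K' := by
    rify at m2 m3 m4
    rw [← hb] at m2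
    nlinarith
  have m6 : #K' ≤ #S := hK' ▸ card_filter_le _ _
  have m7 : #K < #K' := by rify; linarith
  obtain ⟨w, w0, hw⟩ : ∃ w : ℝ, 0 ≤ w ∧ w ^ 3 = #K' :=
    ⟨_, by positivity, Real.rpow_inv_natCast_pow (Nat.cast_nonneg _) three_ne_zero⟩
  obtain ⟨u, u0, hu⟩ : ∃ u : ℝ, 0 ≤ u ∧ u ^ 3 = t ^ 3 + b / 12 :=
    ⟨_, by positivity, Real.rpow_inv_natCast_pow (by positivity) three_ne_zero⟩
  have I := ih _ (by rw [← hK']; omega) (s - r) (by linarith) (by linarith) rfl w w0 (hK' ▸ hw)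
  have uw : u ≤ w := le_of_pow_le_pow_left₀ three_ne_zero w0 (by linarith)
  have tu : t ≤ u := le_of_pow_le_pow_left₀ three_ne_zero u0 (by linarith)
  have ut : u ≤ 2 * t := le_of_pow_le_pow_left₀ three_ne_zero (by linarith) (by nlinarith)
  have I2 : (s - r) * u ≤ 2016 * a ^ 2 := (mul_le_mul_of_nonneg_left uw (by linarith)).trans I
  have e1 : b ≤ 84 * t ^ 2 * (u - t) := by
    have : u ^ 2 + u * t + t ^ 2 ≤ 7 * t ^ 2 := by nlinarith
    nlinarith [mul_le_mul_of_nonneg_left this (sub_nonneg.2 tu)]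
  have e2 : r * t ^ 2 * t ^ 2 ≤ 12 * a * (a * b) := mul_le_mul rt i (by positivity) (by positivity)
  have e3 : r * t ^ 2 ≤ 1008 * a ^ 2 * (u - t) := by
    refine le_of_mul_le_mul_right ?_ (by positivity : 0 < t ^ 2)
    nlinarith [mul_le_mul_of_nonneg_left e1 (by positivity : 0 ≤ 12 * a ^ 2)]
  refine le_of_mul_le_mul_right ?_ (by linarith : 0 < u)
  nlinarith [mul_le_mul_of_nonneg_right I2 t0, mul_le_mul_of_nonneg_left ut (mul_nonneg r0.le t0)]

omit g0 g1 gS sub cn in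
theorem green {a : ℝ} (a1 : 1 ≤ a)
    (iso : ∀ K, Con nb o K → ∀ t : ℝ, 0 ≤ t → t ^ 3 = #K → t ^ 2 ≤ a * #(bd nb K)) :
    ∃ u : V → ℝ, (∀ x, x ≠ o → ∑ d, (u (nb x d) - u x) = 0) ∧ Tendsto u cofinite (𝓝 0) ∧
      ∀ x, ReflTransGen (fun a b => ∃ d, nb a d = b) o x → 0 < u x := by
  have ho : ∀ k, hh nb o k o = 1 := fun k => by cases k <;> simp [hh]
  have h0 : ∀ k x, 0 ≤ hh nb o k x ∧ hh nb o k x ≤ 1 := fun k => by
    induction k with
    | zero => intro x; simp only [hh]; split_ifs <;> simp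
    | succ k ih =>
      intro x; simp only [hh]; split_ifs
      · simp
      · have := sum_le_card_nsmul univ _ _ fun d _ => (ih (nb x d)).2
        simp at this
        exact ⟨div_nonneg (sum_nonneg fun d _ => (ih _).1) (by norm_num), by linarith⟩
  have hm : ∀ k x, hh nb o k x ≤ hh nb o (k + 1) x := fun k => by
    induction k with
    | zero => intro x; by_cases h : x = o; simp [h, ho]; simpa [h, hh] using (h0 1 x).1
    | succ k ih =>
      intro x; rw [hh, hh]; simp only; split_ifs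
      · rfl
      · exact div_le_div_of_nonneg_right (sum_le_sum fun d _ => ih _) (by norm_num)
  have hs : ∀ k, ∃ S : Finset V, ∀ x, 0 < hh nb o k x → x ∈ S ∧
      ReflTransGen (fun a b => ∃ d, nb a d = b) o x := fun k => by
    induction k with
    | zero => exact ⟨{o}, fun x h => by by_cases k : x = o <;> simp_all [hh, ReflTransGen.refl]⟩
    | succ k ih =>
      obtain ⟨S, hS⟩ := ih
      refine ⟨insert o ((S ×ˢ univ).image fun p => nb p.1 p.2), fun x h => ?_⟩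
      by_cases e : x = o
      · simp [e, ReflTransGen.refl]
      simp only [hh, e, if_false] at h
      obtain ⟨d, -, hd⟩ := exists_ne_zero_of_sum_ne_zero (left_ne_zero_of_mul h.ne')
      have := hS _ ((h0 _ _).1.lt_of_ne' hd)
      exact ⟨mem_insert_of_mem (mem_image.2 ⟨(nb x d, iv x d), by simp [this.1], hi _ _⟩),
        this.2.tail ⟨_, hi _ _⟩⟩
  have mo : ∀ x, Monotone (hh nb o · x) := fun x => monotone_nat_of_le_succ fun k => hm k x
  have bb : ∀ x, BddAbove (Set.range (hh nb o · x)) := fun x => ⟨1, by rintro _ ⟨k, rfl⟩; exact (h0 k x).2⟩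
  have tl := fun x => tendsto_atTop_ciSup (mo x) (bb x)
  refine ⟨fun x => ⨆ k, hh nb o k x, fun x hx => ?_, ?_, fun x hx => ?_⟩
  · have t1 := (tendsto_add_atTop_iff_nat 1).2 (tl x)
    simp only [hh, hx, if_false] at t1
    have := tendsto_nhds_unique t1 ((tendsto_finsetSum _ fun d _ => tl (nb x d)).div_const 6)
    simp only [sum_sub_distrib]
    rw [this]; simp; ring
  · refine tendsto_order.2 ⟨fun s hs => .of_forall fun x =>
      hs.trans_le ((h0 0 x).1.trans (le_ciSup (bb x) 0)), fun s' s0 => ?_⟩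
    obtain ⟨s, s1, s2, s3⟩ : ∃ s, 0 < s ∧ s < s' ∧ s < 1 := ⟨min s' 1 / 2, by positivity,
      by linarith [min_le_left s' 1], by linarith [min_le_right s' 1]⟩
    rw [eventually_cofinite]
    by_contra hf
    obtain ⟨F, F1, F2⟩ := (Set.not_finite.1 hf).exists_subset_card_eq (⌈(2016 * a ^ 2 / s) ^ 3⌉₊ + 1)
    obtain ⟨k, hk⟩ := ((eventually_all_finset F).2 fun x hx => (tl x).eventually_const_lt
      (s2.trans_le (not_lt.1 (F1 hx)))).exists
    obtain ⟨S, hS⟩ := hs k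
    obtain ⟨w, w0, hw⟩ : ∃ w : ℝ, 0 ≤ w ∧ w ^ 3 = #{x ∈ S | s < hh nb o k x} :=
      ⟨_, by positivity, Real.rpow_inv_natCast_pow (Nat.cast_nonneg _) three_ne_zero⟩
    have l := lev hv hi (fun x => (h0 k x).1) (ho k) (fun x h => (hS x h).1) (fun x hx => by
      have := hm k x
      simp only [hh, hx, if_false] at this; linarith) (fun x h => (hS x h).2) a1 iso _ s s1.le s3 rfl w w0 hw
    have c : #F ≤ #{x ∈ S | s < hh nb o k x} := card_le_card fun x hx =>
      mem_filter.2 ⟨(hS x (s1.trans (hk x hx))).1, hk x hx⟩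
    rw [← le_div_iff₀' s1] at l
    have := pow_le_pow_left₀ w0 l 3
    have := Nat.le_ceil ((2016 * a ^ 2 / s) ^ 3)
    rify at c F2
    linarith
  · have : ∃ k, 0 < hh nb o k x := by
      induction hx with
      | refl => exact ⟨0, by simp [ho]⟩
      | tail _ h ih =>
        obtain ⟨d, rfl⟩ := h
        obtain ⟨k, hk⟩ := ih
        refine ⟨k + 1, ?_⟩
        simp only [hh]; split_ifs
        · exact one_pos
        · exact div_pos (sum_pos' (fun d _ => (h0 _ _).1) ⟨iv _ d, mem_univ _, by rwa [hi]⟩) (by norm_num)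
    exact this.choose_spec.trans_le (le_ciSup (bb x) _)

end Pool.Agent.H.MP_b4265e_pr
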