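import Pool.Agent.H.MP_b4265e_pr.A

set_option linter.unusedSectionVars false
set_option linter.unusedVariables false
set_option linter.dupNamespace false

namespace Pool.Agent.H.MP_b4265e_pr

open Finset Relation

/-- unit coordinate vectors -/
def e (i : Fin 3) : Fin 3 → ℤ := Pi.single i 1

noncomputable def D : Finset (Fin 3 → ℤ) := Fintype.piFinset fun _ => Icc (-1) 1

def W : (Fin 3 → ℤ) → List (Fin 3 → ℤ) → Finset (Fin 3 → ℤ)
  | v, [] => {v}
  | v, d :: l => insert v (W (v + d) l)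

lemma negD {d : Fin 3 → ℤ} (h : d ∈ D) : -d ∈ D := by
  simp only [D, Fintype.mem_piFinset, mem_Icc, Pi.neg_apply] at *
  exact fun i => by have := h i; omega

lemma self_mem (v : Fin 3 → ℤ) (l : List (Fin 3 → ℤ)) : v ∈ W v l := by cases l <;> simp [W]

lemma card_W (l : List (Fin 3 → ℤ)) : ∀ v, #(W v l) ≤ l.length + 1 := by
  induction l with
  | nil => simp [W]
  | cons d l ih => exact fun v => (card_insert_le _ _).trans (by simpa using ih _)

lemma ins {d y : Fin 3 → ℤ} (hd : d ∈ D) (l : List (Fin 3 → ℤ)) : ∀ v, y ∈ W v l → (∀ e ∈ l, e ∈ D) →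
    ∃ l' : List (Fin 3 → ℤ), l'.length = l.length + 2 ∧ (∀ e ∈ l', e ∈ D) ∧
      W v l' = insert (y + d) (W v l) := by
  have k : ∀ l : List (Fin 3 → ℤ), (∀ e ∈ l, e ∈ D) → ∃ l' : List (Fin 3 → ℤ), l'.length = l.length + 2 ∧
      (∀ e ∈ l', e ∈ D) ∧ W y l' = insert (y + d) (W y l) := fun l h =>
    ⟨d :: -d :: l, rfl, by simpa [hd, negD hd] using h, by
      rw [W, W, add_neg_cancel_right, insert_comm, insert_eq_of_mem (self_mem _ _)]⟩
  induction l with
  | nil => intro v h; rw [← mem_singleton.1 h]; exact k _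
  | cons e l ih =>
    intro v h g
    rcases mem_insert.1 h with rfl | h
    · exact k _ g
    obtain ⟨l', a, b, c⟩ := ih _ h fun _ m => g _ (.tail _ m)
    exact ⟨e :: l', by simp [a], by simpa [g e] using b, by rw [W, W, c, insert_comm]⟩

lemma cover {E : Finset (Fin 3 → ℤ)} {v : Fin 3 → ℤ} (h : v ∈ E) :
    ∃ l : List (Fin 3 → ℤ), (∀ e ∈ l, e ∈ D) ∧ l.length + 2 ≤ 2 * #(W v l) ∧ W v l ⊆ E ∧
      ∀ y ∈ W v l, ∀ d ∈ D, y + d ∈ E → y + d ∈ W v l := by
  obtain ⟨l, ⟨a, b, c⟩, m⟩ := (InvImage.wf (fun l => #E - #(W v l)) wellFounded_lt).has_min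
    {l | (∀ e ∈ l, e ∈ D) ∧ l.length + 2 ≤ 2 * #(W v l) ∧ W v l ⊆ E} ⟨[], by simp [W, h]⟩
  refine ⟨l, a, b, c, fun y hy d hd k => by_contra fun n => ?_⟩
  obtain ⟨l', e, f, g⟩ := ins hd l v hy a
  have s : W v l' ⊆ E := g ▸ insert_subset k c
  have := card_le_card s
  have q : #(W v l') = #(W v l) + 1 := by rw [g, card_insert_of_notMem n]
  exact m l' ⟨f, by omega, s⟩ (show #E - #(W v l') < #E - #(W v l) by omega)

lemma lw {K U : Finset (Fin 3 → ℤ)} (h : ∀ x ∈ K, ∀ i, ∃ y ∈ U, ∀ j, j ≠ i → y j = x j) :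
    #K ^ 2 ≤ #U ^ 3 := by
  choose! E h1 h2 using h
  have f : ∀ c : ℤ, (#{x ∈ K | x 0 = c} : ℝ) ≤ √(#U) * #{x ∈ U | x 0 = c} := fun c => by
    have a : #{x ∈ K | x 0 = c} ≤ #U := card_le_card_of_injOn (E · 0) (fun x hx => h1 x (mem_filter.1 hx).1 0)
      fun x hx y hy k => by
        have hx := mem_filter.1 hx
        have hy := mem_filter.1 hy
        ext i
        by_cases hi : i = 0
        · rw [hi, hx.2, hy.2]
        · rw [← h2 x hx.1 0 i hi, ← h2 y hy.1 0 i hi]; exact congrFun k i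
    have b : #{x ∈ K | x 0 = c} ≤ #({x ∈ U | x 0 = c} ×ˢ {x ∈ U | x 0 = c}) :=
      card_le_card_of_injOn (fun x => (E x 2, E x 1)) (fun x hx => by
        have hx := mem_filter.1 hx
        exact mem_product.2 ⟨mem_filter.2 ⟨h1 x hx.1 2, (h2 x hx.1 2 0 (by decide)).trans hx.2⟩,
          mem_filter.2 ⟨h1 x hx.1 1, (h2 x hx.1 1 0 (by decide)).trans hx.2⟩⟩) fun x hx y hy k => by
        have hx := (mem_filter.1 hx).1
        have hy := (mem_filter.1 hy).1
        ext i
        by_cases hi : i = 2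
        · rw [← h2 x hx 1 i (by omega), ← h2 y hy 1 i (by omega)]; exact congrFun (congrArg Prod.snd k) i
        · rw [← h2 x hx 2 i hi, ← h2 y hy 2 i hi]; exact congrFun (congrArg Prod.fst k) i
    rw [card_product] at b
    refine le_of_sq_le_sq ?_ (by positivity)
    rw [mul_pow, Real.sq_sqrt (by positivity), sq, sq]
    exact_mod_cast Nat.mul_le_mul a b
  have s : (#K : ℝ) ≤ √(#U) * #U := by
    have c : ∑ c ∈ K.image (· 0), #{x ∈ U | x 0 = c} ≤ #U := by
      rw [← card_biUnion fun a _ b _ h => disjoint_filter.2 fun x _ k k' => h (k.symm.trans k')]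
      exact card_le_card (biUnion_subset.2 fun _ _ => filter_subset _ _)
    rw [card_eq_sum_card_image (· 0) K]
    push_cast
    refine (sum_le_sum fun c _ => f c).trans ?_
    rw [← mul_sum]
    exact mul_le_mul_of_nonneg_left (by exact_mod_cast c) (by positivity)
  have := pow_le_pow_left₀ (by positivity) s 2
  rw [mul_pow, Real.sq_sqrt (by positivity), ← pow_succ'] at this
  exact_mod_cast this

theorem geo {K : Finset (Fin 3 → ℤ)} {o : Fin 3 → ℤ} (ho : o ∈ K) (hc : ∀ x ∈ K,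
    ReflTransGen (fun a b => b ∈ K ∧ (b = a ∨ ∃ i, b = a + e i ∨ a = b + e i)) o x) :
    ∃ (t : ℕ) (l : List (Fin 3 → ℤ)), (∀ d ∈ l, d ∈ D) ∧ t < #K ∧
      l.length + 2 ≤ 2 * #(W (o + t • e 0) l) ∧ #K ^ 2 ≤ #(W (o + t • e 0) l) ^ 3 ∧
      ∀ x ∈ W (o + t • e 0) l, ∃ i, ¬ (x ∈ K ↔ x + e i ∈ K) := by
  have ee : ∀ i j, e i j = if j = i then 1 else 0 := fun i j => Pi.single_apply _ _ _
  obtain ⟨z, hz, zm⟩ := exists_max_image {y ∈ K | (∀ j, j ≠ 0 → y j = o j) ∧ o 0 ≤ y 0} (· 0)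
    ⟨o, by simp [ho]⟩
  simp only [mem_filter, and_imp] at hz zm
  obtain ⟨t, ht⟩ := Int.le.dest hz.2.2
  have zo : o + t • e 0 = z := by
    ext j; by_cases h : j = 0 <;> simp [h, ee, ht, hz.2.1]
  have zn : ∀ y : Fin 3 → ℤ, (∀ j, j ≠ 0 → y j = z j) → z 0 < y 0 → y ∉ K := fun y h1 h2 k =>
    (zm y k (fun j hj => (h1 j hj).trans (hz.2.1 j hj)) (by omega)).not_gt h2
  have z1 : z + e 0 ∉ K := zn _ (by simp +contextual [ee]) (by simp [ee])
  obtain ⟨E, mE⟩ : ∃ E : Finset (Fin 3 → ℤ), ∀ x, x ∈ E ↔ ∃ i, ¬ (x ∈ K ↔ x + e i ∈ K) :=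
    ⟨{x ∈ K ∪ (K ×ˢ univ).image fun p => p.1 - e p.2 | ∃ i, ¬ (x ∈ K ↔ x + e i ∈ K)}, fun x =>
      mem_filter.trans (and_iff_right_of_imp fun ⟨i, h⟩ => by_contra fun n => by
        rw [mem_union, not_or] at n
        exact h (iff_of_false n.1 fun k => n.2 (mem_image.2 ⟨(x + e i, i), by simp [k], by simp⟩)))⟩
  obtain ⟨l, l1, l2, l3, l4⟩ := cover ((mE z).2 ⟨0, fun h => z1 (h.1 hz.1)⟩)
  refine ⟨t, l, l1, ?_, zo ▸ l2, zo ▸ lw fun x hx i => ?_, zo ▸ fun x hx => (mE x).1 (l3 hx)⟩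
  · have k : ∀ x, ReflTransGen (fun a b => b ∈ K ∧ (b = a ∨ ∃ i, b = a + e i ∨ a = b + e i)) o x →
        Icc (o 0) (x 0) ⊆ K.image (· 0) := fun x h => by
      induction h with
      | refl => simpa using mem_image_of_mem _ ho
      | @tail a b _ h ih =>
        intro c hc
        rcases le_or_gt c (a 0) with k | k
        · exact ih (mem_Icc.2 ⟨(mem_Icc.1 hc).1, k⟩)
        refine mem_image.2 ⟨b, h.1, ?_⟩
        have := (mem_Icc.1 hc).2
        rcases h.2 with rfl | ⟨i, rfl | rfl⟩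
        · omega
        all_goals simp only [Pi.add_apply, ee] at *; split_ifs at * <;> omega
    have := (card_le_card (k z (hc z hz.1))).trans card_image_le
    rw [Int.card_Icc] at this; omega
  have zU := self_mem z l
  generalize W z l = U at *
  obtain ⟨χ, hχ⟩ : ∃ χ : (Fin 3 → ℤ) → ZMod 2, χ = fun x => if x ∈ K then 1 else 0 := ⟨_, rfl⟩
  obtain ⟨γ, hγ⟩ : ∃ γ : (Fin 3 → ℤ) → Fin 3 → ZMod 2,
    γ = fun x i => if x ∈ U then χ x + χ (x + e i) else 0 := ⟨_, rfl⟩
  obtain ⟨f, hf⟩ : ∃ f : (Fin 3 → ℤ) → ZMod 2, f = fun x =>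
    ∑ y ∈ U, if (∀ j, j ≠ 0 → y j = x j) ∧ x 0 ≤ y 0 then γ y 0 else 0 := ⟨_, rfl⟩
  obtain ⟨M, hM⟩ : ∃ M : ℕ, ∀ y ∈ U, ∀ j, y j < M := by
    obtain ⟨M, hM⟩ := ((U ×ˢ univ).image fun p => (p.1 p.2).toNat).bddAbove
    exact ⟨M + 1, fun y hy j => by
      have := hM (mem_coe.2 (mem_image.2 ⟨(y, j), by simp [hy], rfl⟩)); simp only at this; omega⟩
  have f0 : ∀ x j, (M : ℤ) ≤ x j → f x = 0 := fun x j h => by
    rw [hf]
    refine sum_eq_zero fun y hy => if_neg fun k => ?_
    have := hM y hy j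
    by_cases h0 : j = 0
    · subst h0; omega
    · have := k.1 j h0; omega
  have g0 : ∀ x i, (x ∈ K ↔ x + e i ∈ K) → γ x i = 0 := fun x i h => by
    simp [hγ, hχ, ← h, CharTwo.add_self_eq_zero]
  have g1 : ∀ y ∈ U, ∀ x i, x - y ∈ D → γ x i = χ x + χ (x + e i) := fun y hy x i h => by
    by_cases k : x ∈ U
    · simp [hγ, k]
    have : x ∈ K ↔ x + e i ∈ K := by_contra fun n => k (by
      simpa using l4 y hy _ h (by simpa using (mE x).2 ⟨i, n⟩))
    rw [g0 x i this]; simp [hχ, ← this, CharTwo.add_self_eq_zero]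
  have fh : ∀ x, f x = γ x 0 + f (x + e 0) := fun x => by
    have : γ x 0 = ∑ y ∈ U, if y = x then γ y 0 else 0 := by
      rw [sum_ite_eq']; by_cases h : x ∈ U <;> simp [hγ, h]
    rw [this, hf, ← sum_add_distrib]
    refine sum_congr rfl fun y _ => ?_
    by_cases h : y = x
    · simp [h, ee]
    by_cases k : ∀ j, j ≠ 0 → y j = x j
    · have : y 0 ≠ x 0 := fun n => h (funext fun j => by by_cases h0 : j = 0; exacts [h0 ▸ n, k j h0])
      rw [if_neg h, zero_add]
      exact if_congr (and_congr (by simp +contextual [ee]) (by simp [ee]; omega)) rfl rfl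
    · rw [if_neg h, if_neg fun n => k n.1, if_neg fun n => k (by simpa +contextual [ee] using n.1), add_zero]
  have fv : ∀ i x, f x = γ x i + f (x + e i) := fun i => by
    have : ∀ (n : ℕ) (x : Fin 3 → ℤ), M ≤ x 0 + n → f x = γ x i + f (x + e i) := fun n => by
      induction n with
      | zero =>
        intro x h
        have : x ∉ U := fun k => by have := hM x k 0; omega
        rw [f0 x 0 (by omega), f0 _ 0 (by simp only [Pi.add_apply, ee]; split_ifs <;> omega)]
        simp [hγ, this]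
      | succ n ih =>
        intro x h
        rw [fh x, ih (x + e 0) (by simp [ee] at *; omega), fh (x + e i), add_right_comm x]
        by_cases k : ∃ y ∈ U, y = x ∨ y = x + e 0 ∨ y = x + e i
        · obtain ⟨y, hy, k⟩ := k
          have d : x - y ∈ D ∧ x + e 0 - y ∈ D ∧ x + e i - y ∈ D := by
            simp only [D, Fintype.mem_piFinset, mem_Icc, ← forall_and]
            intro j
            rcases k with rfl | rfl | rfl <;> simp only [Pi.add_apply, Pi.sub_apply, ee] <;>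
              split_ifs <;> omega
          rw [g1 y hy _ _ d.1, g1 y hy _ _ d.1, g1 y hy _ _ d.2.1, g1 y hy _ _ d.2.2, add_right_comm x (e i)]
          linear_combination CharTwo.add_self_eq_zero (χ (x + e 0)) - CharTwo.add_self_eq_zero (χ (x + e i))
        · push Not at k
          have k1 : x ∉ U := fun n => (k _ n).1 rfl
          have k2 : x + e 0 ∉ U := fun n => (k _ n).2.1 rfl
          have k3 : x + e i ∉ U := fun n => (k _ n).2.2 rfl
          simp [hγ, k1, k2, k3]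
    exact fun x => this (M - x 0).toNat x (by omega)
  have fc : ∀ x, ReflTransGen (fun a b => b ∈ K ∧ (b = a ∨ ∃ i, b = a + e i ∨ a = b + e i)) o x →
      x ∈ K ∧ f x = f o := fun x h => by
    induction h with
    | refl => exact ⟨ho, rfl⟩
    | @tail a b _ h ih =>
      refine ⟨h.1, Eq.trans ?_ ih.2⟩
      rcases h.2 with rfl | ⟨i, rfl | rfl⟩
      · rfl
      · rw [fv i a, g0 a i (iff_of_true ih.1 h.1), zero_add]
      · rw [fv i b, g0 b i (iff_of_true h.1 ih.1), zero_add]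
  have fz : f z = 1 := by
    rw [fh, hf]; simp only
    rw [sum_eq_zero, hγ]
    · simp [hχ, zU, hz.1, z1]
    intro y _
    split_ifs with k
    · simp +contextual [ee] at k
      exact g0 y 0 (iff_of_false (zn y k.1 (by omega)) (zn _ (by simpa +contextual [ee] using k.1)
        (by simp [ee]; omega)))
    · rfl
  by_contra hn
  have : ∀ s : ℕ, f (x + s • e i) = 1 := fun s => by
    induction s with
    | zero => simpa [fz] using (fc x (hc x hx)).2.trans (fc z (hc z hz.1)).2.symm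
    | succ s ih =>
      have : x + s • e i ∉ U := fun k => hn ⟨_, k, by simp +contextual [ee]⟩
      rw [fv i, hγ] at ih
      rw [succ_nsmul, ← add_assoc]
      simpa only [this, if_false, zero_add] using ih
  exact zero_ne_one ((f0 _ i (by simp [ee]; omega)).symm.trans (this (M - x i).toNat))

end Pool.Agent.H.MP_b4265e_pr
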