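import Pool.Agent.H.MP_b4265e_pr.B
import Pool.Agent.Lib.helper9.Birkhoff

set_option linter.unusedSectionVars false
set_option linter.unusedVariables false
set_option linter.dupNamespace false

namespace Pool.Agent.H.MP_b4265e_pr

open Finset Relation MeasureTheory Measure Filter Topology
open scoped ENNReal

/-- The neighbour of `x` in direction `d` if that edge is open, and `x` itself if it is closed. -/
def nb (ω : (Fin 3 → ℤ) → Fin 3 → Bool) (x : Fin 3 → ℤ) (d : Fin 3 × Bool) : Fin 3 → ℤ :=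
  if d.2 then (if ω x d.1 then x + e d.1 else x) else if ω (x - e d.1) d.1 then x - e d.1 else x

/-- The open cluster of `x`. -/
def Cl (ω : (Fin 3 → ℤ) → Fin 3 → Bool) (x : Fin 3 → ℤ) : Set (Fin 3 → ℤ) :=
  {y | ReflTransGen (fun a b => ∃ d, nb ω a d = b) x y}

def iv (ω : (Fin 3 → ℤ) → Fin 3 → Bool) (x : Fin 3 → ℤ) (d : Fin 3 × Bool) : Fin 3 × Bool :=
  if ω (if d.2 then x else x - e d.1) d.1 then (d.1, !d.2) else d

variable {ω : (Fin 3 → ℤ) → Fin 3 → Bool} {o : Fin 3 → ℤ}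

lemma nb_iv (x : Fin 3 → ℤ) (d : Fin 3 × Bool) : nb ω (nb ω x d) (iv ω x d) = x := by
  obtain ⟨i, _ | _⟩ := d
  · by_cases h : ω (x - e i) i = true <;> simp [nb, iv, h]
  · by_cases h : ω x i = true <;> simp [nb, iv, h]

lemma iv_iv (x : Fin 3 → ℤ) (d : Fin 3 × Bool) : iv ω (nb ω x d) (iv ω x d) = d := by
  obtain ⟨i, _ | _⟩ := d
  · by_cases h : ω (x - e i) i = true <;> simp [nb, iv, h]
  · by_cases h : ω x i = true <;> simp [nb, iv, h]

abbrev I := Σ k : ℕ, Fin (4 ^ k) × (Fin k → D)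

noncomputable def U (o : Fin 3 → ℤ) (j : I) : Finset (Fin 3 → ℤ) :=
  W (o + (j.2.1 : ℕ) • e 0) (List.ofFn fun i => (j.2.2 i : Fin 3 → ℤ))

lemma geo' {K : Finset (Fin 3 → ℤ)} (h : Con (nb ω) o K) : ∃ j : I, j.1 + 2 ≤ 2 * #(U o j) ∧
    #K ^ 2 ≤ #(U o j) ^ 3 ∧ #{x ∈ U o j | ¬ ∃ i, ω x i = false} ≤ #(bd (nb ω) K) := by
  obtain ⟨t, l, h1, h2, h3, h4, h5⟩ := geo h.1 fun x hx => ReflTransGen.mono (fun a b ⟨k, d, hd⟩ => ⟨k, by
    rw [← hd, nb]; split_ifs
    exacts [.inr ⟨_, .inl rfl⟩, .inl rfl, .inr ⟨d.1, .inr (by simp)⟩, .inl rfl]⟩) _ _ (h.2 x hx)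
  have c := card_W l (o + t • e 0)
  have c2 : l.length + 1 ≤ 2 ^ l.length := Nat.lt_two_pow_self
  have : t < 4 ^ l.length := h2.trans_le (le_of_pow_le_pow_left₀ two_ne_zero (by positivity) (by
    refine h4.trans ((Nat.pow_le_pow_left (c.trans c2) 3).trans ?_)
    rw [show 4 = 2 ^ 2 from rfl, ← pow_mul, ← pow_mul, ← pow_mul]
    exact Nat.pow_le_pow_right two_pos (by omega)))
  have eU : U o ⟨l.length, ⟨t, this⟩, fun i => ⟨l.get i, h1 _ (l.get_mem i)⟩⟩ = W (o + t • e 0) l := by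
    simp [U]
  refine ⟨⟨l.length, ⟨t, this⟩, fun i => ⟨l.get i, h1 _ (l.get_mem i)⟩⟩, eU ▸ h3, eU ▸ h4, eU ▸ ?_⟩
  refine (card_le_card fun x hx => ?_).trans
    (card_image_le (f := fun p => if p.2.2 then p.1 else p.1 - e p.2.1))
  obtain ⟨i, hi⟩ := h5 x (mem_filter.1 hx).1
  have : ω x i = true := by simpa using not_exists.1 (mem_filter.1 hx).2 i
  by_cases k : x ∈ K
  · exact mem_image.2 ⟨(x, i, true), by simpa [bd, nb, this, k] using hi, rfl⟩
  · exact mem_image.2 ⟨(x + e i, i, false), by simpa [bd, nb, this, k] using hi, by simp⟩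

def Hb (o : Fin 3 → ℤ) (j : I) : Set ((Fin 3 → ℤ) → Fin 3 → Bool) :=
  {ω | j.1 + 2 ≤ 2 * #(U o j) ∧ #(U o j) ≤ 2 * #{x ∈ U o j | ∃ i, ω x i = false}}

def Ab (j : I) : Set ((Fin 3 → ℤ) → Fin 3 → Bool) :=
  {ω | j.1 + 2 ≤ 2 * #(U 0 j) ∧ 6 ≤ #(U 0 j) ∧ ∀ x ∈ U 0 j, ∃ i, ω x i = false}

lemma iso (hf : {j | ω ∈ Hb o j}.Finite) (ho : (Cl ω o).Infinite) : ∃ a : ℝ, 1 ≤ a ∧
    ∀ K, Con (nb ω) o K → ∀ t : ℝ, 0 ≤ t → t ^ 3 = #K → t ^ 2 ≤ a * #(bd (nb ω) K) := by
  obtain ⟨m, hm⟩ := (hf.image fun j => #(U o j)).bddAbove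
  refine ⟨m + 2, by linarith [(Nat.cast_nonneg m : (0 : ℝ) ≤ m)], fun K hK t t0 ht => ?_⟩
  obtain ⟨j, h1, h2, h3⟩ := geo' hK
  have b1 : 0 < #(bd (nb ω) K) := card_pos.2 (nonempty_iff_ne_empty.2 fun h => ho
    (K.finite_toSet.subset fun y hy => by
      induction hy with
      | refl => exact hK.1
      | @tail a b _ k ih =>
        obtain ⟨d, rfl⟩ := k
        exact by_contra fun n => notMem_empty (a, d) (h ▸ by simpa [bd] using ⟨ih, n⟩)))
  have c := card_filter_add_card_filter_not (s := U o j) fun x => ∃ i, ω x i = false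
  have : #(U o j) ≤ (m + 2) * #(bd (nb ω) K) := by
    by_cases k : ω ∈ Hb o j
    · have := hm ⟨j, k, rfl⟩
      simp only at this
      nlinarith
    · have : ¬ #(U o j) ≤ 2 * #{x ∈ U o j | ∃ i, ω x i = false} := fun n => k ⟨h1, n⟩
      nlinarith
  refine le_trans (le_of_pow_le_pow_left₀ three_ne_zero (Nat.cast_nonneg #(U o j)) ?_) (by exact_mod_cast this)
  rw [← pow_mul, mul_comm, pow_mul, ht]
  exact_mod_cast h2

def Pt (ω : (Fin 3 → ℤ) → Fin 3 → Bool) (x : Fin 3 → ℤ) : Prop :=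
  (∀ j : ℕ, j < 12 → ω (j • e 0 + x) 0 = true) ∧ (∀ i, i ≠ 0 → ω (0 + x) i = false) ∧
    ∀ i, ω (-e i + x) i = false

lemma inf_of (h : Pt ω 0) (hA : ∀ j, ω ∉ Ab j) : (Cl ω 0).Infinite := fun hf => by
  have hK : Con (nb ω) 0 hf.toFinset := ⟨hf.mem_toFinset.2 .refl, fun x hx => by
    have hx := hf.mem_toFinset.1 hx
    induction hx with
    | refl => exact .refl
    | tail k k' ih => exact (ih (hf.mem_toFinset.2 k)).tail ⟨hf.mem_toFinset.2 (k.tail k'), k'⟩⟩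
  obtain ⟨j, h1, h2, h3⟩ := geo' hK
  have s : ∀ n : ℕ, n < 12 → n • e 0 ∈ Cl ω 0 := fun n hn => by
    induction n with
    | zero => simpa [Cl] using ReflTransGen.refl
    | succ n ih =>
      have := h.1 n (by omega)
      rw [add_zero] at this
      exact (ih (by omega)).tail ⟨(0, true), by rw [succ_nsmul, nb, if_pos rfl, if_pos this]⟩
  have c : #(range 12) ≤ hf.toFinset.card := card_le_card_of_injOn (· • e 0)
    (fun n hn => hf.mem_toFinset.2 (s n (mem_range.1 hn))) fun a _ b _ k => by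
      simpa [e] using congrFun k 0
  rw [show bd (nb ω) hf.toFinset = ∅ from filter_eq_empty_iff.2 fun p hp n => n (hf.mem_toFinset.2
    ((hf.mem_toFinset.1 (mem_product.1 hp).1).tail ⟨_, rfl⟩)), card_empty, Nat.le_zero, card_eq_zero,
    filter_eq_empty_iff] at h3
  refine hA j ⟨h1, by_contra fun n => ?_, fun x hx => not_not.1 (h3 hx)⟩
  have := Nat.pow_le_pow_left (show #(U 0 j) ≤ 5 by omega) 3
  have := Nat.pow_le_pow_left c 2
  simp at *; omega

def sh (x : Fin 3 → ℤ) (ω : (Fin 3 → ℤ) → Fin 3 → Bool) : (Fin 3 → ℤ) → Fin 3 → Bool := fun y => ω (y + x)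

lemma sh_it (x : Fin 3 → ℤ) (k : ℕ) : (sh x)^[k] ω = sh (k • x) ω := by
  induction k with
  | zero => ext; simp [sh]
  | succ k ih => rw [Function.iterate_succ_apply', ih]; ext; simp only [sh, succ_nsmul', add_assoc]

lemma sh_inf {x : Fin 3 → ℤ} (h : (Cl (sh x ω) 0).Infinite) : (Cl ω x).Infinite :=
  (h.image (add_left_injective x).injOn).mono (by
    rintro _ ⟨y, hy, rfl⟩
    induction hy with
    | refl => simpa [Cl] using ReflTransGen.refl
    | tail _ k ih =>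
      obtain ⟨d, rfl⟩ := k
      exact ih.tail ⟨d, by simp only [nb, sh, sub_add_eq_add_sub]; split_ifs <;> abel⟩)

lemma pos {X : Type} [MeasurableSpace X] {μ : Measure X} [IsProbabilityMeasure μ] {T : X → X}
    (hT : MeasurePreserving T μ μ) {Z : Set X} (mZ : MeasurableSet Z) (hZ : μ Z ≠ 0) :
    ∃ η : ℝ, 0 < η ∧ ∃ Z', MeasurableSet Z' ∧ μ Z' ≠ 0 ∧ ∀ x ∈ Z', ∀ (k : ℕ) (f : ℕ → ℝ) (c : ℝ), 0 ≤ c →
      (∀ i, 0 ≤ f i) → (∀ i, T^[i] x ∈ Z → c ≤ f i) → η * k * c ≤ ∑ i ∈ range k, f i := by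
  have z0 : 0 < μ.real Z := ENNReal.toReal_pos hZ (measure_ne_top _ _)
  have mφ : Measurable fun x => μ.real Z / 2 - Z.indicator 1 x := by
    exact measurable_const.sub (measurable_const.indicator mZ)
  have iZ : Integrable (Z.indicator (1 : X → ℝ)) μ := (integrable_const (1 : ℝ)).indicator mZ
  have M := Pool.Agent.Lib.helper9.Birkhoff.maximal hT mφ ((integrable_const _).sub iZ)
  refine ⟨μ.real Z / 2, by positivity, {x | ∃ k, 0 < birkhoffSum T
    (fun x => μ.real Z / 2 - Z.indicator 1 x) k x}ᶜ, .compl ?_, fun h => ?_, fun x hx k f c c0 f0 fc => ?_⟩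
  · simp only [Set.ofPred_exists]
    exact .iUnion fun k => measurableSet_lt measurable_const
      (Pool.Agent.Lib.helper9.Birkhoff.meas_sum hT.measurable mφ k)
  · rw [restrict_eq_self_of_ae_mem (s := {x | ∃ k, 0 < birkhoffSum T _ k x}) h, integral_sub (integrable_const _) iZ, integral_indicator_one mZ] at M
    simp at M; linarith
  · have := not_lt.1 (not_exists.1 hx k)
    rw [birkhoffSum, sum_sub_distrib, sum_const, card_range, nsmul_eq_mul, sub_nonpos, mul_comm] at this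
    refine (mul_le_mul_of_nonneg_right this c0).trans ?_
    rw [sum_mul]
    refine sum_le_sum fun i _ => ?_
    by_cases h : T^[i] x ∈ Z
    · simpa [h] using fc i h
    · simpa [h] using f0 i

end Pool.Agent.H.MP_b4265e_pr
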