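import Pool.Agent.H.MP_b4265e_pr.C

set_option linter.unusedSectionVars false
set_option linter.unusedVariables false
set_option linter.dupNamespace false

namespace Pool.Agent.H.MP_b4265e_pr

open Finset Relation MeasureTheory Measure Filter Topology
open scoped ENNReal

/-- Bond percolation: the states of the edges from `x` to `x + e i` are independent with law `ν`. -/
noncomputable def P (ν : Measure Bool) : Measure ((Fin 3 → ℤ) → Fin 3 → Bool) :=
  Measure.infinitePi fun _ => Measure.pi fun _ => ν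

variable {ν : Measure Bool} [IsProbabilityMeasure ν]

instance : IsProbabilityMeasure (P ν) := by unfold P; infer_instance

lemma bad_le (S : Finset (Fin 3 → ℤ)) :
    P ν {ω | ∀ x ∈ S, ∃ i, ω x i = false} ≤ (3 * ν {false}) ^ #S := by
  refine ((infinitePi_pi (fun _ : Fin 3 → ℤ => Measure.pi fun _ : Fin 3 => ν) (s := S)
    (t := fun _ => {a | ∃ i, a i = false}) fun _ _ => .of_discrete).trans (prod_const _)).trans_le ?_
  gcongr
  rw [Set.ofPred_exists]
  refine (measure_iUnion_fintype_le _ _).trans_eq ?_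
  exact (sum_congr rfl fun i _ => (measurePreserving_eval (fun _ : Fin 3 => ν) i).measure_preimage
    (s := {false}) MeasurableSet.of_discrete.nullMeasurableSet).trans (by simp)

lemma sumI (c : ℝ≥0∞) : ∑' j : I, c * (432⁻¹ ^ j.1 * 2 ^ j.1) = c * 2 := by
  have : ∀ k : ℕ, ((4 ^ k * 27 ^ k : ℕ) : ℝ≥0∞) * (432⁻¹ ^ k * 2 ^ k) = 2⁻¹ ^ k := fun k => by
    push_cast
    rw [← mul_pow, ← mul_pow, ← mul_pow]
    congr 1
    rw [← ENNReal.toReal_eq_toReal_iff' (by finiteness) (by finiteness)]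
    simp; norm_num
  rw [ENNReal.tsum_mul_left, ENNReal.tsum_sigma']
  simp only [tsum_fintype, sum_const, card_univ, Fintype.card_prod, Fintype.card_fin, Fintype.card_fun,
    Fintype.card_coe, show #D = 27 by simp [D], nsmul_eq_mul, this]
  rw [ENNReal.tsum_geometric, ENNReal.one_sub_inv_two, inv_inv]

lemma card_U (o : Fin 3 → ℤ) (j : I) : #(U o j) ≤ j.1 + 1 := (card_W _ _).trans_eq (by simp)

variable (hq : 3 * ν {false} ≤ 432⁻¹ ^ 12 * 2⁻¹ ^ 60)
include hq

lemma pw {a k : ℕ} (a0 : a ≠ 0) (h : k ≤ 12 * a) : (3 * ν {false}) ^ a ≤ 2⁻¹ ^ 60 * 432⁻¹ ^ k := by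
  refine (pow_le_pow_left' hq a).trans ?_
  rw [mul_pow, ← pow_mul, ← pow_mul, mul_comm]
  exact mul_le_mul' (pow_le_pow_right_of_le_one' (by simp) (by omega))
    (pow_le_pow_right_of_le_one' (by simp) h)

lemma Hb_ae : ∀ᵐ ω ∂P ν, ∀ o, {j | ω ∈ Hb o j}.Finite := by
  refine ae_all_iff.2 fun o => ae_finite_setOfPred_mem (ne_top_of_le_ne_top (by finiteness)
    ((ENNReal.tsum_le_tsum fun j => ?_).trans_eq (sumI 2)))
  by_cases h : j.1 + 2 ≤ 2 * #(U o j)
  swap
  · rw [show Hb o j = ∅ from Set.eq_empty_of_forall_notMem fun ω k => h k.1]; simp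
  refine (measure_mono (t := ⋃ S ∈ {S ∈ (U o j).powerset | #(U o j) ≤ 2 * #S},
    {ω | ∀ x ∈ S, ∃ i, ω x i = false}) fun ω k => Set.mem_iUnion₂.2 ⟨_, mem_filter.2
      ⟨mem_powerset.2 (filter_subset _ _), k.2⟩, fun x hx => (mem_filter.1 hx).2⟩).trans
    ((measure_biUnion_finset_le _ _).trans ((sum_le_card_nsmul _ _ (432⁻¹ ^ j.1) fun S hS => ?_).trans ?_))
  · have := (mem_filter.1 hS).2
    exact (bad_le S).trans ((pw hq (by omega) (by omega)).trans
      (mul_le_of_le_one_left' (pow_le_one' (by simp) _)))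
  · rw [nsmul_eq_mul, mul_left_comm, mul_comm, ← pow_succ']
    gcongr
    exact_mod_cast (card_filter_le _ _).trans ((card_powerset _).trans_le
      (Nat.pow_le_pow_right two_pos (card_U o j)))

lemma Ab_le : P ν (⋃ j, Ab j) ≤ (3 * ν {false}) ^ 5 * 2⁻¹ ^ 60 * 2 := by
  refine (measure_iUnion_le _).trans ((ENNReal.tsum_le_tsum fun j => ?_).trans_eq (sumI _))
  by_cases h : j.1 + 2 ≤ 2 * #(U 0 j) ∧ 6 ≤ #(U 0 j)
  swap
  · rw [show Ab j = ∅ from Set.eq_empty_of_forall_notMem fun ω k => h ⟨k.1, k.2.1⟩]; simp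
  refine (measure_mono fun ω k => k.2.2).trans ((bad_le _).trans ?_)
  obtain ⟨a, ha⟩ := Nat.exists_eq_add_of_le (show 5 ≤ #(U 0 j) by omega)
  rw [ha, pow_add, mul_assoc]
  refine mul_le_mul_right ((pw hq (k := j.1) (by omega) (by omega)).trans (mul_le_mul_right ?_ _)) _
  exact le_mul_of_one_le_right' (one_le_pow₀ one_le_two)

omit hq in
lemma Pt_ge (h : 2⁻¹ ≤ ν {true}) : ν {false} ^ 5 * 2⁻¹ ^ 45 ≤ P ν {ω | Pt ω 0} := by
  obtain ⟨T, hT⟩ : ∃ T : Finset (Fin 3 → ℤ), T = (range 12).image (· • e 0) ∪ univ.image (-e ·) := ⟨_, rfl⟩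
  obtain ⟨C, hC⟩ : ∃ C : Finset ((Fin 3 → ℤ) × Fin 3),
    C = ({0} : Finset (Fin 3 → ℤ)) ×ˢ ({1, 2} : Finset (Fin 3)) ∪ univ.image fun i => (-e i, i) := ⟨_, rfl⟩
  refine le_trans ?_ ((infinitePi_pi (fun _ : Fin 3 → ℤ => Measure.pi fun _ : Fin 3 => ν) (s := T)
    (t := fun x => Set.univ.pi fun i => {decide ((x, i) ∉ C)}) fun _ _ => .of_discrete).ge.trans
    (measure_mono fun ω k => ⟨fun j hj => ?_, fun i hi => ?_, fun i => ?_⟩))
  · simp only [Measure.pi_pi]
    rw [← prod_product' (f := fun x i => ν {decide ((x, i) ∉ C)}),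
      ← prod_filter_mul_prod_filter_not _ (· ∈ C)]
    refine mul_le_mul' (le_trans ?_ (pow_card_le_prod _ _ (ν {false}) fun p hp => by
      simp [(mem_filter.1 hp).2])) (le_trans ?_ (pow_card_le_prod _ _ 2⁻¹ fun p hp => by
      simpa [(mem_filter.1 hp).2] using h))
    · refine pow_le_pow_right_of_le_one' prob_le_one ((card_le_card fun p hp => (mem_filter.1 hp).2).trans ?_)
      rw [hC]
      exact (card_union_le _ _).trans (add_le_add (by simp : _ ≤ 2) (card_image_le.trans (by simp : _ ≤ 3)))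
    · refine pow_le_pow_right_of_le_one' (by simp) ((card_filter_le _ _).trans ?_)
      have := (card_union_le ((range 12).image (· • e 0)) (univ.image (-e ·))).trans
        (add_le_add card_image_le card_image_le)
      rw [card_product, hT]
      simp only [card_range, card_univ, Fintype.card_fin] at *
      omega
  · have := k (j • e 0) (by rw [hT]; exact mem_coe.2 (mem_union_left _ (mem_image_of_mem _ (mem_range.2 hj))))
      0 trivial
    rw [add_zero, this, decide_eq_true_eq, hC]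
    simp only [mem_union, mem_product, mem_image, Prod.mk.injEq, not_or]
    refine ⟨by simp, fun ⟨i, _, a, b⟩ => ?_⟩
    have := congrFun a 0
    simp [b, e] at this
  · have := k 0 (by rw [hT]; exact mem_coe.2 (mem_union_left _ (mem_image.2 ⟨0, by simp, by simp⟩))) i trivial
    rw [add_zero, this, hC]
    fin_cases i <;> simp at hi ⊢
  · have := k (-e i) (by simp [hT]) i trivial
    rw [add_zero, this, hC]; simp

omit hq in
lemma sh_mp (x : Fin 3 → ℤ) : MeasurePreserving (sh x) (P ν) (P ν) :=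
  ⟨by unfold sh; fun_prop, map_infinitePi_infinitePi_of_inj
    (P := fun _ : Fin 3 → ℤ => Measure.pi fun _ : Fin 3 => ν) (add_left_injective x)⟩

theorem dens (h : 2⁻¹ ≤ ν {true}) (h0 : ν {false} ≠ 0) : ∃ η : ℝ, 0 < η ∧ ∃ E, MeasurableSet E ∧ P ν E ≠ 0 ∧
    ∀ ω ∈ E, ∀ N : ℕ, ∃ X : Finset (Fin 3 → ℤ), η * N ^ 3 ≤ #X ∧
      ∀ x ∈ X, (∀ i, 0 ≤ x i ∧ x i < N) ∧ Pt ω x ∧ (Cl ω x).Infinite := by
  classical
  have mA : MeasurableSet (⋃ j, Ab j) := .iUnion fun j => measurableSet_setOfPred.2 (by fun_prop)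
  have mZ : MeasurableSet ({ω | Pt ω 0} \ ⋃ j, Ab j) :=
    (measurableSet_setOfPred.2 (by unfold Pt; fun_prop)).diff mA
  have hZ : P ν ({ω | Pt ω 0} \ ⋃ j, Ab j) ≠ 0 := fun n => by
    have := (Pt_ge h).trans ((measure_mono (Set.subset_sdiff_union _ _)).trans ((measure_union_le _ _).trans
      (add_le_add n.le (Ab_le hq))))
    rw [zero_add, mul_pow, mul_comm (3 ^ 5), mul_assoc, mul_assoc,
      ENNReal.mul_le_mul_iff_right (pow_ne_zero _ h0) (by finiteness),
      ← ENNReal.toReal_le_toReal (by finiteness) (by finiteness)] at this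
    simp at this; norm_num at this
  obtain ⟨a, a0, Z1, m1, p1, c1⟩ := pos (sh_mp (e 0)) mZ hZ
  obtain ⟨b, b0, Z2, m2, p2, c2⟩ := pos (sh_mp (e 1)) m1 p1
  obtain ⟨c, c0, Z3, m3, p3, c3⟩ := pos (sh_mp (e 2)) m2 p2
  refine ⟨c * b * a, by positivity, Z3, m3, p3, fun ω hω N => ⟨({p ∈ range N ×ˢ range N ×ˢ range N |
    sh (p.2.2 • e 0 + (p.2.1 • e 1 + p.1 • e 2)) ω ∈ {ω | Pt ω 0} \ ⋃ j, Ab j}).image
      fun p => p.2.2 • e 0 + (p.2.1 • e 1 + p.1 • e 2), ?_, fun x hx => ?_⟩⟩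
  · rw [card_image_of_injective _ fun p q k => by
      have h0 := congrFun k 0
      have h1 := congrFun k 1
      have h2 := congrFun k 2
      simp [e] at h0 h1 h2
      exact Prod.ext h2 (Prod.ext h1 h0), card_filter]
    push_cast
    simp only [sum_product]
    refine le_of_eq_of_le (by ring) (c3 ω hω N _ (b * N * (a * N * 1)) (by positivity)
      (fun k => by positivity) fun k hk => c2 _ hk N _ _ (by positivity) (fun j => by positivity)
        fun j hj => c1 _ hj N _ _ zero_le_one (fun i => by positivity) fun i hi => ?_)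
    rw [if_pos]
    convert hi using 1
    simp only [sh_it]
    ext; simp only [sh, add_assoc]
  · obtain ⟨p, hp, rfl⟩ := mem_image.1 hx
    simp only [mem_filter, mem_product, mem_range] at hp
    refine ⟨fun i => by fin_cases i <;> simp [e, hp.1], by simpa [Pt, sh] using hp.2.1,
      sh_inf (inf_of hp.2.1 fun j k => hp.2.2 (Set.mem_iUnion.2 ⟨j, k⟩))⟩

end Pool.Agent.H.MP_b4265e_pr
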